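import Mathlib
import Pool.Agent.P.MP_c25521_co.Frac

namespace Pool.Agent.Results.MP_c25521_co.FractionalBound

open Pool.Agent.P.MP_c25521_co

/-- If `G i` is `m i`-degenerate for every `i`, `M = ∑ i, m i` and `m j < M`, then the union of
the `G i` has a fractional colouring of total weight at most `(√M + √(M - m j))^2`. -/
theorem result (s : ℕ) (m : Fin s → ℕ) (V : Type) [Fintype V] [DecidableEq V]
    (G : Fin s → SimpleGraph V)
    (hdeg : ∀ i : Fin s, ∀ S : Finset V, S.Nonempty →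
      ∃ v ∈ S, ∀ T : Finset V, T ⊆ S → (∀ w ∈ T, (G i).Adj v w) → T.card ≤ m i)
    (j : Fin s) (hj : m j < ∑ i, m i) :
    ∃ w : Finset V → ℝ, (∀ I, 0 ≤ w I) ∧
      (∀ I, w I ≠ 0 → (⨆ i, G i).IsIndepSet (I : Set V)) ∧
      (∀ v, 1 ≤ ∑ I, if v ∈ I then w I else 0) ∧
      ∑ I, w I ≤ (Real.sqrt (∑ i, (m i : ℝ)) + Real.sqrt (∑ i, (m i : ℝ) - m j)) ^ 2 := by
  classical
  choose out hc ho using fun i => exists_out (G i) (m i) (hdeg i) Finset.univ
  have hsplit : m j + ∑ i ∈ Finset.univ.erase j, m i = ∑ i, m i :=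
    Finset.add_sum_erase _ _ (Finset.mem_univ j)
  obtain ⟨w, h0, h1, h2, h3⟩ := frac_of_out (G j) (m j) (∑ i ∈ Finset.univ.erase j, m i) (hdeg j)
    (fun v => (Finset.univ.erase j).biUnion fun i => out i v)
    (fun v => Finset.card_biUnion_le.trans (Finset.sum_le_sum fun i _ => hc i v)) (by omega)
  refine ⟨w, h0, fun I hI a ha b hb hab hadj => ?_, h2, ?_⟩
  · obtain ⟨i, hi⟩ := SimpleGraph.iSup_adj.1 hadj
    by_cases hij : i = j
    · exact (h1 I hI a ha b hb hab).1 (hij ▸ hi)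
    · rcases ho i a (Finset.mem_univ _) b (Finset.mem_univ _) hi with h | h
      · exact (h1 I hI a ha b hb hab).2 (Finset.mem_biUnion.2 ⟨i, by simp [hij], h⟩)
      · exact (h1 I hI b hb a ha hab.symm).2 (Finset.mem_biUnion.2 ⟨i, by simp [hij], h⟩)
  · have e1 : (m j : ℝ) + ((∑ i ∈ Finset.univ.erase j, m i : ℕ) : ℝ) = ∑ i, (m i : ℝ) := by
      exact_mod_cast hsplit
    have e2 : ((∑ i ∈ Finset.univ.erase j, m i : ℕ) : ℝ) = ∑ i, (m i : ℝ) - m j := by linarith
    rw [e1, e2] at h3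
    exact h3

end Pool.Agent.Results.MP_c25521_co.FractionalBound
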